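import Mathlib

/-!
# Fourier coefficients of periodic functions on the line
-/

set_option autoImplicit false
open MeasureTheory Filter Topology
open scoped ContDiff

namespace Pool.Agent.Helper12.ZR

noncomputable section

/-- `exp (2 π i t)` -/
def e (t : ℝ) : ℂ := Complex.exp (2 * Real.pi * Complex.I * t)

theorem e_add (s t : ℝ) : e (s + t) = e s * e t := by
  unfold e
  rw [← Complex.exp_add]
  congr 1
  push_cast
  ring

theorem e_zero : e 0 = 1 := by simp [e]

theorem norm_e (t : ℝ) : ‖e t‖ = 1 := by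
  unfold e
  have : (2 * Real.pi * Complex.I * t : ℂ) = ((2 * Real.pi * t : ℝ) : ℂ) * Complex.I := by
    push_cast
    ring
  rw [this, Complex.norm_exp_ofReal_mul_I]

theorem e_int (n : ℤ) : e n = 1 := by
  unfold e
  have : (2 * Real.pi * Complex.I * ((n : ℝ) : ℂ) : ℂ) = (n : ℂ) * (2 * Real.pi * Complex.I) := by
    push_cast
    ring
  rw [this, Complex.exp_int_mul_two_pi_mul_I]

theorem e_cont : Continuous e := by unfold e; fun_prop

theorem e_mul_deriv (n : ℤ) (x : ℝ) :
    HasDerivAt (fun x : ℝ => e (n * x)) (2 * Real.pi * Complex.I * n * e (n * x)) x := by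
  have h1 : HasDerivAt (fun x : ℝ => (2 * Real.pi * Complex.I * n : ℂ) * (x : ℂ))
      (2 * Real.pi * Complex.I * n) x := by
    simpa using (Complex.ofRealCLM.hasDerivAt (x := x)).const_mul (2 * Real.pi * Complex.I * n : ℂ)
  have h2 := h1.cexp
  have h3 : (fun x : ℝ => e (n * x)) =
      fun x : ℝ => Complex.exp ((2 * Real.pi * Complex.I * n : ℂ) * (x : ℂ)) := by
    funext x
    unfold e
    congr 1
    push_cast
    ring
  rw [h3]
  refine h2.congr_deriv ?_
  have h4 : e (n * x) = Complex.exp ((2 * Real.pi * Complex.I * n : ℂ) * (x : ℂ)) :=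
    congrFun h3 x
  rw [h4]
  ring

/-- a lower bound for `|e t - 1|` -/
theorem e_sub_one (t : ℝ) : 4 * |t - round t| ≤ ‖e t - 1‖ := by
  obtain ⟨y, hy⟩ : ∃ y : ℝ, y = t - round t := ⟨_, rfl⟩
  have hy2 : |y| ≤ 1 / 2 := by rw [hy]; exact abs_sub_round t
  have h1 : e t = e y := by
    have : t = y + ((round t : ℤ) : ℝ) := by rw [hy]; ring
    conv_lhs => rw [this]
    rw [e_add, e_int, mul_one]
  rw [h1, ← hy]
  have h2 : e y - 1 = Complex.exp (Complex.I * ((2 * Real.pi * y : ℝ) : ℂ)) - 1 := by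
    unfold e
    congr 2
    push_cast
    ring
  rw [h2, Complex.norm_exp_I_mul_ofReal_sub_one]
  have h3 : 2 * Real.pi * y / 2 = Real.pi * y := by ring
  rw [h3, Real.norm_eq_abs, abs_mul, abs_two]
  have h4 : 2 / Real.pi * |Real.pi * y| ≤ |Real.sin (Real.pi * y)| := by
    refine Real.mul_abs_le_abs_sin ?_
    rw [abs_mul, abs_of_pos Real.pi_pos]
    nlinarith [Real.pi_pos]
  rw [abs_mul, abs_of_pos Real.pi_pos] at h4
  have h5 : 2 / Real.pi * (Real.pi * |y|) = 2 * |y| := by
    field_simp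
  rw [h5] at h4
  linarith

/-- the Fourier coefficients of a function of period one -/
def coef (g : ℝ → ℂ) (n : ℤ) : ℂ := ∫ x in (0:ℝ)..1, e (-(n * x)) * g x

theorem coef_zero (g : ℝ → ℂ) : coef g 0 = ∫ x in (0:ℝ)..1, g x := by
  unfold coef
  simp [e_zero]

theorem cont_term (n : ℤ) {g : ℝ → ℂ} (hg : Continuous g) :
    Continuous fun x : ℝ => e (-(n * x)) * g x :=
  (e_cont.comp (by fun_prop)).mul hg

theorem coef_sub {g h : ℝ → ℂ} (hg : Continuous g) (hh : Continuous h) (n : ℤ) :
    coef (fun x => g x - h x) n = coef g n - coef h n := by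
  unfold coef
  rw [← intervalIntegral.integral_sub ((cont_term n hg).intervalIntegrable _ _)
    ((cont_term n hh).intervalIntegrable _ _)]
  congr 1
  funext x
  ring

theorem coef_shift {g : ℝ → ℂ} (hp : Function.Periodic g 1) (s : ℝ) (n : ℤ) :
    coef (fun x => g (x + s)) n = e (n * s) * coef g n := by
  unfold coef
  have h1 : ∀ x : ℝ, e (-(n * x)) * g (x + s) =
      (fun y : ℝ => e (n * s) * (e (-(n * y)) * g y)) (x + s) := by
    intro x
    show e (-(n * x)) * g (x + s) = e (n * s) * (e (-(n * (x + s))) * g (x + s))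
    rw [← mul_assoc, ← e_add]
    congr 2
    ring
  simp_rw [h1]
  rw [intervalIntegral.integral_comp_add_right
    (fun y : ℝ => e (n * s) * (e (-(n * y)) * g y)) s]
  have hper : Function.Periodic (fun y : ℝ => e (n * s) * (e (-(n * y)) * g y)) 1 := by
    intro y
    show e (n * s) * (e (-(n * (y + 1))) * g (y + 1)) = _
    rw [hp y]
    congr 2
    have : -(n * (y + 1)) = -(n * y) + ((-n : ℤ) : ℝ) := by push_cast; ring
    rw [this, e_add, e_int, mul_one]
  have h2 := hper.intervalIntegral_add_eq (0 + s) 0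
  rw [zero_add] at h2
  rw [zero_add, add_comm 1 s, h2, intervalIntegral.integral_const_mul, zero_add]

theorem coef_deriv {g : ℝ → ℂ} (hp : Function.Periodic g 1) (hg : ContDiff ℝ 1 g) (n : ℤ) :
    coef (deriv g) n = 2 * Real.pi * Complex.I * n * coef g n := by
  unfold coef
  have hc : Continuous (deriv g) := hg.continuous_deriv le_rfl
  have h1 : ∀ x : ℝ, HasDerivAt (fun x : ℝ => e (-(n * x)))
      (-(2 * Real.pi * Complex.I * n) * e (-(n * x))) x := by
    intro x
    have h := e_mul_deriv (-n) x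
    have h2 : (fun x : ℝ => e (((-n : ℤ) : ℝ) * x)) = fun x : ℝ => e (-(n * x)) := by
      funext x
      congr 1
      push_cast
      ring
    rw [h2] at h
    refine h.congr_deriv ?_
    have h3 : ((-n : ℤ) : ℝ) * x = -(n * x) := by push_cast; ring
    rw [h3]
    push_cast
    ring
  have h2 := intervalIntegral.integral_mul_deriv_eq_deriv_mul (a := (0:ℝ)) (b := 1)
    (u := fun x : ℝ => e (-(n * x))) (v := g)
    (u' := fun x : ℝ => -(2 * Real.pi * Complex.I * n) * e (-(n * x))) (v' := deriv g)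
    (fun x _ => h1 x) (fun x _ => (hg.differentiable (by simp) x).hasDerivAt)
    ((continuous_const.mul (e_cont.comp (by fun_prop))).intervalIntegrable _ _)
    (hc.intervalIntegrable _ _)
  rw [h2]
  have h3 : g 1 = g 0 := by
    have := hp 0
    rwa [zero_add] at this
  have h4 : e (-(n * 1)) = 1 := by
    have : (-(n * 1) : ℝ) = ((-n : ℤ) : ℝ) := by push_cast; ring
    rw [this, e_int]
  have h5 : e (-(n * 0)) = 1 := by
    rw [mul_zero, neg_zero, e_zero]
  rw [h3, h4, h5, sub_self, zero_sub, ← intervalIntegral.integral_neg,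
    ← intervalIntegral.integral_const_mul]
  congr 1
  funext x
  ring

theorem coef_bound {g : ℝ → ℂ} (hg : Continuous g) :
    ∃ M : ℝ, ∀ n : ℤ, ‖coef g n‖ ≤ M := by
  refine ⟨∫ x in (0:ℝ)..1, ‖g x‖, fun n => ?_⟩
  unfold coef
  refine (intervalIntegral.norm_integral_le_integral_norm zero_le_one).trans (le_of_eq ?_)
  congr 1
  funext x
  rw [norm_mul, norm_e, one_mul]

theorem periodic_deriv {g : ℝ → ℂ} (hp : Function.Periodic g 1) : Function.Periodic (deriv g) 1 := by
  intro x
  have h1 : (fun y => g (y + 1)) = g := funext hp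
  rw [← deriv_comp_add_const, h1]

/-- decay of the coefficients -/
theorem coef_decay (m : ℕ) : ∀ {g : ℝ → ℂ}, Function.Periodic g 1 → ContDiff ℝ m g →
    ∃ M : ℝ, ∀ n : ℤ, |(n : ℝ)| ^ m * ‖coef g n‖ ≤ M := by
  induction m with
  | zero =>
    intro g _ hg
    obtain ⟨M, hM⟩ := coef_bound hg.continuous
    exact ⟨M, fun n => by rw [pow_zero, one_mul]; exact hM n⟩
  | succ m ih =>
    intro g hp hg
    have h1 : ContDiff ℝ m (deriv g) := by
      have := hg
      rw [Nat.cast_succ, contDiff_succ_iff_deriv] at this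
      exact this.2.2
    obtain ⟨M, hM⟩ := ih (periodic_deriv hp) h1
    refine ⟨M, fun n => ?_⟩
    have h2 := hM n
    rw [coef_deriv hp (hg.of_le (by simp)) n] at h2
    have h3 : ‖(2 * Real.pi * Complex.I * n : ℂ)‖ = 2 * Real.pi * |(n : ℝ)| := by
      rw [norm_mul, norm_mul, norm_mul, Complex.norm_I, Complex.norm_real, Complex.norm_intCast,
        Real.norm_eq_abs, abs_of_pos Real.pi_pos]
      simp
    rw [norm_mul, h3] at h2
    refine le_trans ?_ h2
    have h4 : 0 ≤ |(n : ℝ)| ^ m * (|(n : ℝ)| * ‖coef g n‖) := by positivity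
    have h5 : 1 ≤ 2 * Real.pi := by linarith [Real.pi_gt_three]
    calc |(n : ℝ)| ^ (m + 1) * ‖coef g n‖ = 1 * (|(n : ℝ)| ^ m * (|(n : ℝ)| * ‖coef g n‖)) := by
          ring
      _ ≤ 2 * Real.pi * (|(n : ℝ)| ^ m * (|(n : ℝ)| * ‖coef g n‖)) :=
          mul_le_mul_of_nonneg_right h5 h4
      _ = _ := by ring

/-- decay of the coefficients, with `1 + |n|` -/
theorem coef_decay' (m : ℕ) {g : ℝ → ℂ} (hp : Function.Periodic g 1) (hg : ContDiff ℝ m g) :
    ∃ M : ℝ, 0 ≤ M ∧ ∀ n : ℤ, ‖coef g n‖ ≤ M / (1 + |(n : ℝ)|) ^ m := by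
  obtain ⟨M₀, h0⟩ := coef_bound hg.continuous
  obtain ⟨M₁, h1⟩ := coef_decay m hp hg
  have hM0 : 0 ≤ M₀ := (norm_nonneg _).trans (h0 0)
  have hM1 : 0 ≤ M₁ := le_trans (by positivity) (h1 0)
  refine ⟨2 ^ m * (M₀ + M₁), by positivity, fun n => ?_⟩
  rw [le_div_iff₀ (by positivity)]
  have h2 : (1 + |(n : ℝ)|) ^ m ≤ 2 ^ m * (1 + |(n : ℝ)| ^ m) := by
    rcases le_total (|(n : ℝ)|) 1 with h | h
    · calc (1 + |(n : ℝ)|) ^ m ≤ 2 ^ m := by
            refine pow_le_pow_left₀ (by positivity) (by linarith) m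
        _ = 2 ^ m * 1 := by ring
        _ ≤ _ := by
            refine mul_le_mul_of_nonneg_left ?_ (by positivity)
            have : 0 ≤ |(n : ℝ)| ^ m := by positivity
            linarith
    · calc (1 + |(n : ℝ)|) ^ m ≤ (2 * |(n : ℝ)|) ^ m := by
            refine pow_le_pow_left₀ (by positivity) (by linarith) m
        _ = 2 ^ m * |(n : ℝ)| ^ m := by rw [mul_pow]
        _ ≤ _ := by
            refine mul_le_mul_of_nonneg_left ?_ (by positivity)
            linarith
  calc ‖coef g n‖ * (1 + |(n : ℝ)|) ^ m ≤ ‖coef g n‖ * (2 ^ m * (1 + |(n : ℝ)| ^ m)) :=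
        mul_le_mul_of_nonneg_left h2 (norm_nonneg _)
    _ = 2 ^ m * (‖coef g n‖ + |(n : ℝ)| ^ m * ‖coef g n‖) := by ring
    _ ≤ _ := by
        refine mul_le_mul_of_nonneg_left ?_ (by positivity)
        linarith [h0 n, h1 n]

theorem summable_two : Summable fun n : ℤ => 1 / (1 + |(n : ℝ)|) ^ 2 := by
  have h1 : Summable fun n : ℤ => 1 / (n : ℝ) ^ 2 := Real.summable_one_div_int_pow.2 (by norm_num)
  refine h1.of_norm_bounded_eventually (Filter.eventually_cofinite.2 ?_)
  refine (Set.finite_singleton (0:ℤ)).subset fun n hn => ?_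
  by_contra h0
  apply hn
  have hn0 : (n : ℝ) ≠ 0 := by
    intro h
    exact h0 (by exact_mod_cast h)
  have h2 : 0 < |(n : ℝ)| := abs_pos.2 hn0
  rw [Real.norm_eq_abs, abs_of_pos (by positivity)]
  refine one_div_le_one_div_of_le (by positivity) ?_
  rw [← sq_abs (n : ℝ)]
  exact pow_le_pow_left₀ h2.le (by linarith) 2

/-- Fourier inversion -/
theorem inversion {g : ℝ → ℂ} (hp : Function.Periodic g 1) (hc : Continuous g)
    (hs : Summable (coef g)) (x : ℝ) : HasSum (fun n : ℤ => coef g n * e (n * x)) (g x) := by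
  have : Fact ((0:ℝ) < 1) := ⟨one_pos⟩
  let G : C(AddCircle (1:ℝ), ℂ) := ⟨hp.lift, by
    exact continuous_coinduced_dom.2 hc⟩
  have hG : ∀ y : ℝ, G (y : AddCircle (1:ℝ)) = g y := fun y => rfl
  have h1 : ∀ n : ℤ, fourierCoeff G n = coef g n := by
    intro n
    rw [fourierCoeff_eq_intervalIntegral G n 0]
    unfold coef
    rw [zero_add, div_one, one_smul]
    congr 1
    funext y
    rw [hG, fourier_coe_apply, smul_eq_mul]
    congr 1
    unfold e
    congr 1
    push_cast
    ring
  have h2 : Summable (fourierCoeff G) := by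
    have : fourierCoeff G = coef g := funext h1
    rw [this]
    exact hs
  have h3 := has_pointwise_sum_fourier_series_of_summable h2 (x : AddCircle (1:ℝ))
  rw [hG] at h3
  have h4 : (fun n : ℤ => fourierCoeff G n • fourier n (x : AddCircle (1:ℝ))) =
      fun n : ℤ => coef g n * e (n * x) := by
    funext n
    rw [h1, fourier_coe_apply, smul_eq_mul]
    congr 1
    unfold e
    congr 1
    push_cast
    ring
  rw [h4] at h3
  exact h3

end

end Pool.Agent.Helper12.ZR
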