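import Pool.Agent.Helper12.ZR.Four

/-!
# Cocycles over the action generated by finitely many rotations of the circle
-/

set_option autoImplicit false
open MeasureTheory Filter Topology
open scoped ContDiff

namespace Pool.Agent.Helper12.ZR

noncomputable section

theorem iter_term (b : ℂ) (n : ℤ) (j : ℕ) :
    iteratedDeriv j (fun x : ℝ => b * e (n * x)) =
      fun x : ℝ => b * (2 * Real.pi * Complex.I * n) ^ j * e (n * x) := by
  induction j with
  | zero =>
    funext x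
    rw [iteratedDeriv_zero, pow_zero, mul_one]
  | succ j ih =>
    rw [iteratedDeriv_succ, ih]
    funext x
    have h1 := (e_mul_deriv n x).const_mul (b * (2 * Real.pi * Complex.I * n) ^ j)
    rw [h1.deriv]
    ring

theorem norm_iter_term (b : ℂ) (n : ℤ) (j : ℕ) (x : ℝ) :
    ‖iteratedFDeriv ℝ j (fun x : ℝ => b * e (n * x)) x‖ = ‖b‖ * (2 * Real.pi * |(n : ℝ)|) ^ j := by
  rw [norm_iteratedFDeriv_eq_norm_iteratedDeriv, iter_term, norm_mul, norm_mul, norm_e, mul_one,
    norm_pow]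
  congr 2
  rw [norm_mul, norm_mul, norm_mul, Complex.norm_I, Complex.norm_real, Complex.norm_intCast,
    Real.norm_eq_abs, abs_of_pos Real.pi_pos]
  simp

theorem contDiff_term (b : ℂ) (n : ℤ) (N : WithTop ℕ∞) : ContDiff ℝ N (fun x : ℝ => b * e (n * x)) := by
  unfold e
  refine contDiff_const.mul (ContDiff.cexp (contDiff_const.mul ?_))
  exact Complex.ofRealCLM.contDiff.comp (contDiff_const.mul contDiff_id)

/-- trigonometric series with small coefficients are smooth -/
theorem series_contDiff {b : ℤ → ℂ} (k : ℕ) {M : ℝ} (hM : 0 ≤ M)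
    (hb : ∀ n, ‖b n‖ ≤ M / (1 + |(n : ℝ)|) ^ (k + 2)) :
    ContDiff ℝ k (fun x : ℝ => ∑' n : ℤ, b n * e (n * x)) := by
  have h1 : ContDiff ℝ ((k : ℕ∞) : WithTop ℕ∞) (fun x : ℝ => ∑' n : ℤ, b n * e (n * x)) := by
    refine contDiff_tsum (N := (k : ℕ∞))
      (v := fun j n => ‖b n‖ * (2 * Real.pi * |(n : ℝ)|) ^ j)
      (fun n => contDiff_term (b n) n _) ?_ ?_
    · intro j hj
      have hjk : j ≤ k := by exact_mod_cast hj
      refine Summable.of_nonneg_of_le (fun n => by positivity) (fun n => ?_)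
        (summable_two.mul_left (M * (2 * Real.pi) ^ j))
      have h2 : (0:ℝ) < 1 + |(n : ℝ)| := by positivity
      have h3 : |(n : ℝ)| ^ j ≤ (1 + |(n : ℝ)|) ^ k :=
        (pow_le_pow_left₀ (abs_nonneg _) (by linarith) j).trans
          (pow_le_pow_right₀ (by linarith [abs_nonneg (n : ℝ)]) hjk)
      calc ‖b n‖ * (2 * Real.pi * |(n : ℝ)|) ^ j
          ≤ M / (1 + |(n : ℝ)|) ^ (k + 2) * ((2 * Real.pi) ^ j * (1 + |(n : ℝ)|) ^ k) := by
            rw [mul_pow]
            refine mul_le_mul (hb n) (mul_le_mul_of_nonneg_left h3 (by positivity))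
              (by positivity) (by positivity)
        _ = M * (2 * Real.pi) ^ j * (1 / (1 + |(n : ℝ)|) ^ 2) := by
            rw [pow_add]
            field_simp
    · intro j n x _
      exact (norm_iter_term (b n) n j x).le
  exact_mod_cast h1

theorem coef_diff {g : ℝ → ℂ} (hp : Function.Periodic g 1) (hg : Continuous g) (s : ℝ) (n : ℤ) :
    coef (fun x => g (x + s) - g x) n = (e (n * s) - 1) * coef g n := by
  have h1 : Continuous fun x => g (x + s) := hg.comp (continuous_id.add continuous_const)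
  rw [coef_sub (g := fun x => g (x + s)) h1 hg, coef_shift hp]
  ring

theorem coef_const (b : ℂ) {n : ℤ} (hn : n ≠ 0) : coef (fun _ : ℝ => b) n = 0 := by
  have h4 := coef_shift (g := fun _ : ℝ => b) (fun _ => rfl) (1 / (2 * n)) n
  have h6 : e (n * (1 / (2 * n))) - 1 ≠ 0 := by
    have hn0 : (n : ℝ) ≠ 0 := by exact_mod_cast hn
    have : (n : ℝ) * (1 / (2 * n)) = 1 / 2 := by field_simp
    rw [this]
    unfold e
    have h7 : (2 * Real.pi * Complex.I * ((1 / 2 : ℝ) : ℂ) : ℂ) = Real.pi * Complex.I := by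
      push_cast
      ring
    rw [h7, Complex.exp_pi_mul_I]
    norm_num
  have h5 : (e (n * (1 / (2 * n))) - 1) * coef (fun _ : ℝ => b) n = 0 := by
    rw [sub_mul, one_mul, ← h4, sub_self]
  exact (mul_eq_zero.1 h5).resolve_left h6

/-- **Rigidity.** -/
theorem rigidity {ι : Type} [Nonempty ι] (J : Finset ι) (w : ι → ℝ) (c : ℝ) (hc : 0 < c) (τ : ℕ)
    (hw : ∀ n : ℤ, n ≠ 0 → ∃ j ∈ J, c / |(n:ℝ)| ^ τ ≤ ‖e (n * w j) - 1‖)
    (f : ι → ℝ → ℂ) (hf : ∀ j ∈ J, ContDiff ℝ ((τ + 2 : ℕ) : WithTop ℕ∞) (f j))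
    (hp : ∀ j ∈ J, Function.Periodic (f j) 1)
    (hcomm : ∀ i ∈ J, ∀ j ∈ J, ∀ x, f i (x + w j) - f i x = f j (x + w i) - f j x) :
    ∃ u : ℝ → ℂ, Continuous u ∧ Function.Periodic u 1 ∧
      (∀ j ∈ J, ∀ x, f j x = (∫ t in (0:ℝ)..1, f j t) + (u (x + w j) - u x)) ∧
      (∀ k : ℕ, (∀ j ∈ J, ContDiff ℝ ((k + (τ + 2) : ℕ) : WithTop ℕ∞) (f j)) → ContDiff ℝ k u) ∧
      ∀ v : ℝ → ℂ, Continuous v → Function.Periodic v 1 →
        (∀ j ∈ J, ∃ b : ℂ, ∀ x, f j x = b + (v (x + w j) - v x)) → ∃ b : ℂ, ∀ x, v x = u x + b := by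
  classical
  choose! σ hσ using hw
  have hcont : ∀ j ∈ J, Continuous (f j) := fun j hj => (hf j hj).continuous
  have hne : ∀ n : ℤ, n ≠ 0 → e (n * w (σ n)) - 1 ≠ 0 := by
    intro n hn h0
    have h1 := (hσ n hn).2
    rw [h0, norm_zero] at h1
    have h2 : 0 < |(n : ℝ)| := abs_pos.2 (by exact_mod_cast hn)
    have : 0 < c / |(n:ℝ)| ^ τ := by positivity
    linarith
  -- the relations between the coefficients
  have hrel : ∀ i ∈ J, ∀ j ∈ J, ∀ n : ℤ,
      (e (n * w j) - 1) * coef (f i) n = (e (n * w i) - 1) * coef (f j) n := by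
    intro i hi j hj n
    have h1 : (fun x => f i (x + w j) - f i x) = fun x => f j (x + w i) - f j x :=
      funext fun x => hcomm i hi j hj x
    rw [← coef_diff (hp i hi) (hcont i hi), ← coef_diff (hp j hj) (hcont j hj), h1]
  obtain ⟨b, hb⟩ : ∃ b : ℤ → ℂ, ∀ n, b n = if n = 0 then 0 else
      coef (f (σ n)) n / (e (n * w (σ n)) - 1) := ⟨_, fun n => rfl⟩
  have hb0 : b 0 = 0 := by rw [hb, if_pos rfl]
  have hbn : ∀ j ∈ J, ∀ n : ℤ, n ≠ 0 → (e (n * w j) - 1) * b n = coef (f j) n := by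
    intro j hj n hn
    rw [hb, if_neg hn, ← mul_div_assoc, hrel (σ n) (hσ n hn).1 j hj n,
      mul_div_cancel_left₀ _ (hne n hn)]
  -- the bounds
  have hbound : ∀ k : ℕ, (∀ j ∈ J, ContDiff ℝ ((k + (τ + 2) : ℕ) : WithTop ℕ∞) (f j)) →
      ∃ M : ℝ, 0 ≤ M ∧ ∀ n, ‖b n‖ ≤ M / (1 + |(n : ℝ)|) ^ (k + 2) := by
    intro k hk
    have h1 : ∀ j ∈ J, ∃ M : ℝ, 0 ≤ M ∧ ∀ n : ℤ,
        ‖coef (f j) n‖ ≤ M / (1 + |(n : ℝ)|) ^ (k + (τ + 2)) :=
      fun j hj => coef_decay' _ (hp j hj) (hk j hj)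
    choose! Mj hMj using h1
    have hMs : 0 ≤ ∑ j ∈ J, Mj j := Finset.sum_nonneg fun j hj => (hMj j hj).1
    refine ⟨(∑ j ∈ J, Mj j) / c, by positivity, fun n => ?_⟩
    by_cases hn : n = 0
    · rw [hn, hb0, norm_zero]
      positivity
    · rw [hb, if_neg hn, norm_div]
      have hn0 : 0 < |(n : ℝ)| := abs_pos.2 (by exact_mod_cast hn)
      have h2 := (hMj _ (hσ n hn).1).2 n
      have h3 : Mj (σ n) ≤ ∑ j ∈ J, Mj j :=
        Finset.single_le_sum (fun j hj => (hMj j hj).1) (hσ n hn).1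
      have h4 := (hσ n hn).2
      have h5 : 0 < c / |(n:ℝ)| ^ τ := by positivity
      calc ‖coef (f (σ n)) n‖ / ‖e (n * w (σ n)) - 1‖
          ≤ ((∑ j ∈ J, Mj j) / (1 + |(n : ℝ)|) ^ (k + (τ + 2))) / (c / |(n:ℝ)| ^ τ) := by
            refine div_le_div₀ (by positivity) (h2.trans ?_) h5 h4
            exact div_le_div_of_nonneg_right h3 (by positivity)
        _ = (∑ j ∈ J, Mj j) / c * (|(n:ℝ)| ^ τ / (1 + |(n : ℝ)|) ^ (k + (τ + 2))) := by
            field_simp
        _ ≤ (∑ j ∈ J, Mj j) / c * (1 / (1 + |(n : ℝ)|) ^ (k + 2)) := by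
            refine mul_le_mul_of_nonneg_left ?_ (by positivity)
            rw [div_le_div_iff₀ (by positivity) (by positivity), one_mul]
            have h6 : |(n:ℝ)| ^ τ ≤ (1 + |(n : ℝ)|) ^ τ :=
              pow_le_pow_left₀ hn0.le (by linarith) τ
            calc |(n:ℝ)| ^ τ * (1 + |(n : ℝ)|) ^ (k + 2)
                ≤ (1 + |(n : ℝ)|) ^ τ * (1 + |(n : ℝ)|) ^ (k + 2) :=
                  mul_le_mul_of_nonneg_right h6 (by positivity)
              _ = (1 + |(n : ℝ)|) ^ (k + (τ + 2)) := by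
                  rw [← pow_add]
                  congr 1
                  ring
        _ = _ := by ring
  have hf0 : ∀ j ∈ J, ContDiff ℝ ((0 + (τ + 2) : ℕ) : WithTop ℕ∞) (f j) := by
    intro j hj
    rw [zero_add]
    exact hf j hj
  obtain ⟨M, hM, hbM⟩ := hbound 0 hf0
  have hbs : Summable fun n => ‖b n‖ := by
    refine Summable.of_nonneg_of_le (fun n => norm_nonneg _) (fun n => ?_)
      (summable_two.mul_left M)
    have := hbM n
    rw [zero_add] at this
    rw [mul_one_div]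
    exact this
  have hts : ∀ x : ℝ, Summable fun n : ℤ => b n * e (n * x) := by
    intro x
    refine Summable.of_norm ?_
    simp_rw [norm_mul, norm_e, mul_one]
    exact hbs
  have hcd : ∀ k : ℕ, (∀ j ∈ J, ContDiff ℝ ((k + (τ + 2) : ℕ) : WithTop ℕ∞) (f j)) →
      ContDiff ℝ k (fun x : ℝ => ∑' n : ℤ, b n * e (n * x)) := by
    intro k hk
    obtain ⟨M', hM', h1⟩ := hbound k hk
    exact series_contDiff k hM' h1
  have hucont : Continuous (fun x : ℝ => ∑' n : ℤ, b n * e (n * x)) := (hcd 0 hf0).continuous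
  have huper : Function.Periodic (fun x : ℝ => ∑' n : ℤ, b n * e (n * x)) 1 := by
    intro x
    show ∑' n : ℤ, b n * e (n * (x + 1)) = ∑' n : ℤ, b n * e (n * x)
    congr 1
    funext n
    have : (n : ℝ) * (x + 1) = n * x + n := by ring
    rw [this, e_add, e_int, mul_one]
  have hcoefs : ∀ j ∈ J, Summable (coef (f j)) := by
    intro j hj
    obtain ⟨M', hM', h1⟩ := coef_decay' 2 (hp j hj) ((hf j hj).of_le (by
      exact_mod_cast Nat.le_add_left 2 τ))
    refine Summable.of_norm_bounded (summable_two.mul_left M') fun n => ?_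
    rw [mul_one_div]
    exact h1 n
  have heq : ∀ j ∈ J, ∀ x, f j x = (∫ t in (0:ℝ)..1, f j t) +
      ((∑' n : ℤ, b n * e (n * (x + w j))) - ∑' n : ℤ, b n * e (n * x)) := by
    intro j hj x
    have h1 := inversion (hp j hj) (hcont j hj) (hcoefs j hj) x
    have h2 := ((hts (x + w j)).hasSum.sub (hts x).hasSum)
    have h3 := h1.sub h2
    have h4 : (fun n : ℤ => coef (f j) n * e (n * x) -
        (b n * e (n * (x + w j)) - b n * e (n * x))) =
        fun n : ℤ => if n = 0 then (∫ t in (0:ℝ)..1, f j t) else 0 := by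
      funext n
      by_cases hn : n = 0
      · rw [if_pos hn, hn, hb0, coef_zero]
        simp [e_zero]
      · rw [if_neg hn, ← hbn j hj n hn]
        have : (n : ℝ) * (x + w j) = n * x + n * w j := by ring
        rw [this, e_add]
        ring
    rw [h4] at h3
    have h5 := hasSum_ite_eq (0 : ℤ) (∫ t in (0:ℝ)..1, f j t)
    have h6 := h3.unique h5
    rw [← h6]
    ring
  refine ⟨fun x => ∑' n : ℤ, b n * e (n * x), hucont, huper, heq, hcd, ?_⟩
  intro v hv hvp hvf
  obtain ⟨h, hh⟩ : ∃ h : ℝ → ℂ, h = fun x => v x - ∑' n : ℤ, b n * e (n * x) := ⟨_, rfl⟩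
  have hhc : Continuous h := by rw [hh]; exact hv.sub hucont
  have hhp : Function.Periodic h 1 := by
    intro x
    rw [hh]
    show v (x + 1) - ∑' n : ℤ, b n * e (n * (x + 1)) = _
    rw [hvp x]
    have := huper x
    simp only at this
    rw [this]
  have hhz : ∀ n : ℤ, n ≠ 0 → coef h n = 0 := by
    intro n hn
    obtain ⟨a, ha⟩ := hvf (σ n) (hσ n hn).1
    have h1 : (fun x => h (x + w (σ n)) - h x) =
        fun _ : ℝ => (∫ t in (0:ℝ)..1, f (σ n) t) - a := by
      funext x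
      have e1 := ha x
      have e2 := heq (σ n) (hσ n hn).1 x
      rw [hh]
      show v (x + w (σ n)) - ∑' n_1 : ℤ, b n_1 * e (n_1 * (x + w (σ n))) -
        (v x - ∑' n : ℤ, b n * e (n * x)) = _
      linear_combination e2 - e1
    have h2 : coef (fun x => h (x + w (σ n)) - h x) n = (e (n * w (σ n)) - 1) * coef h n :=
      coef_diff hhp hhc _ _
    have h3 : coef (fun _ : ℝ => (∫ t in (0:ℝ)..1, f (σ n) t) - a) n = 0 := by
      have h4 := coef_shift (g := fun _ : ℝ => (∫ t in (0:ℝ)..1, f (σ n) t) - a)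
        (fun _ => rfl) (w (σ n)) n
      have h5 : (e (n * w (σ n)) - 1) *
          coef (fun _ : ℝ => (∫ t in (0:ℝ)..1, f (σ n) t) - a) n = 0 := by
        rw [sub_mul, one_mul, ← h4, sub_self]
      exact (mul_eq_zero.1 h5).resolve_left (hne n hn)
    rw [h1, h3] at h2
    exact (mul_eq_zero.1 h2.symm).resolve_left (hne n hn)
  have hhs : Summable (coef h) := by
    refine summable_of_ne_finset_zero (s := {0}) fun n hn => hhz n ?_
    simpa using hn
  refine ⟨coef h 0, fun x => ?_⟩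
  have h1 := inversion hhp hhc hhs x
  have h2 : (fun n : ℤ => coef h n * e (n * x)) = fun n : ℤ => if n = 0 then coef h 0 else 0 := by
    funext n
    by_cases hn : n = 0
    · rw [if_pos hn, hn]
      simp [e_zero]
    · rw [if_neg hn, hhz n hn, zero_mul]
  rw [h2] at h1
  have h3 := h1.unique (hasSum_ite_eq (0 : ℤ) (coef h 0))
  rw [hh] at h3
  have h4 : v x - ∑' n : ℤ, b n * e (n * x) = coef h 0 := by
    rw [← hh] at h3
    rw [← h3, hh]
  linear_combination h4

end

end Pool.Agent.Helper12.ZR
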