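import Pool.Agent.Helper12.ZR.Zeta

/-!
# Small divisors for the indices outside which the zeta values are rational
-/

set_option autoImplicit false

namespace Pool.Agent.Helper12.ZR

theorem sub_divisors (S : Finset ℕ) (hrat : ∀ j ∈ J, j ∉ S → ∃ x : ℚ, zeta j = x)
    (p r s : ℕ → ℤ) (hp : ∀ j ∈ J, p j ≠ 0) (hs : ∀ j ∈ J, s j ≠ 0) (w : ℕ → ℝ)
    (hw : ∀ j ∈ J, j ∈ S → w j = (p j * zeta j + r j) / s j) :
    ∃ c : ℝ, 0 < c ∧ ∀ n : ℤ, n ≠ 0 → ∃ j ∈ S, c / |(n : ℝ)| ^ 391 ≤ ‖e (n * w j) - 1‖ := by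
  classical
  have hx : ∀ j, ∃ x : ℚ, j ∈ J → j ∉ S → zeta j = x := by
    intro j
    by_cases h : j ∈ J ∧ j ∉ S
    · obtain ⟨x, hx⟩ := hrat j h.1 h.2
      exact ⟨x, fun _ _ => hx⟩
    · exact ⟨0, fun h1 h2 => absurd ⟨h1, h2⟩ h⟩
  choose x hx using hx
  obtain ⟨c, hc, hd⟩ := divisors (fun j => if j ∈ S then p j else (x j).den)
    (fun j => if j ∈ S then r j else -(x j).num) (fun j => if j ∈ S then s j else 1)
    (fun j hj => by
      by_cases h : j ∈ S
      · simp only [if_pos h]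
        exact hp j hj
      · simp only [if_neg h]
        exact_mod_cast (x j).den_ne_zero)
    (fun j hj => by
      by_cases h : j ∈ S
      · simp only [if_pos h]
        exact hs j hj
      · simp only [if_neg h]
        exact one_ne_zero)
  refine ⟨c, hc, fun n hn => ?_⟩
  obtain ⟨j, hj, h⟩ := hd n hn
  by_cases hjS : j ∈ S
  · refine ⟨j, hjS, ?_⟩
    simp only [if_pos hjS] at h
    rw [hw j hj hjS]
    exact h
  · exfalso
    simp only [if_neg hjS] at h
    have h1 : (((x j).den : ℤ) : ℝ) * zeta j + ((-(x j).num : ℤ) : ℝ) = 0 := by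
      rw [hx j hj hjS]
      have h2 : ((x j : ℚ) : ℝ) = (x j).num / (x j).den := by
        exact_mod_cast (Rat.num_div_den (x j)).symm
      have h3 : ((x j).den : ℝ) ≠ 0 := by exact_mod_cast (x j).den_ne_zero
      rw [h2]
      push_cast
      field_simp
      ring
    rw [h1, zero_div, mul_zero, e_zero, sub_self, norm_zero] at h
    have hn0 : 0 < |(n : ℝ)| := abs_pos.2 (by exact_mod_cast hn)
    have : 0 < c / |(n : ℝ)| ^ 391 := by positivity
    linarith

end Pool.Agent.Helper12.ZR
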