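import Pool.Agent.Helper12.ZR.Rig

/-!
# Lazy random walks on the circle
-/

set_option autoImplicit false
open MeasureTheory Filter Topology

namespace Pool.Agent.Helper12.ZR

noncomputable section

variable {ι : Type}

/-- one step of the lazy walk: the average of `f` over the points `x` and `x + w j`, `j ∈ S` -/
def step (S : Finset ι) (w : ι → ℝ) (f : ℝ → ℂ) (x : ℝ) : ℂ :=
  (f x + ∑ j ∈ S, f (x + w j)) / (S.card + 1)

/-- the eigenvalues -/
def mult (S : Finset ι) (w : ι → ℝ) (n : ℤ) : ℂ := (1 + ∑ j ∈ S, e (n * w j)) / (S.card + 1)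

theorem mult_le (S : Finset ι) (w : ι → ℝ) (n : ℤ) {j : ι} (hj : j ∈ S) :
    ‖mult S w n‖ ≤ Real.exp (-(‖e (n * w j) - 1‖ ^ 2 / (4 * (S.card + 1)))) := by
  classical
  obtain ⟨d, hd⟩ : ∃ d : ℝ, d = S.card + 1 := ⟨_, rfl⟩
  have hd0 : 0 < d := by rw [hd]; positivity
  obtain ⟨z, hz⟩ : ∃ z : ℂ, z = e (n * w j) := ⟨_, rfl⟩
  have hz1 : ‖z‖ = 1 := by rw [hz]; exact norm_e _
  have h1 : ‖1 + z‖ ^ 2 + ‖z - 1‖ ^ 2 = 4 := by
    have h2 : Complex.normSq z = 1 := by rw [Complex.normSq_eq_norm_sq, hz1, one_pow]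
    rw [← Complex.normSq_eq_norm_sq, ← Complex.normSq_eq_norm_sq]
    rw [Complex.normSq_apply] at h2
    simp only [Complex.normSq_apply, Complex.add_re, Complex.add_im, Complex.sub_re,
      Complex.sub_im, Complex.one_re, Complex.one_im]
    linarith
  have h2 : ‖1 + z‖ ≤ 2 - ‖z - 1‖ ^ 2 / 4 := by
    have h3 : 0 ≤ ‖1 + z‖ := norm_nonneg _
    have h4 : 0 ≤ ‖z - 1‖ := norm_nonneg _
    have h5 : ‖z - 1‖ ^ 2 ≤ 4 := by nlinarith
    refine abs_le_of_sq_le_sq' ?_ (by linarith) |>.2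
    nlinarith
  have h3 : ‖mult S w n‖ ≤ 1 - ‖z - 1‖ ^ 2 / (4 * d) := by
    unfold mult
    rw [norm_div]
    have h4 : ‖((S.card : ℂ) + 1)‖ = d := by
      have : ((S.card : ℂ) + 1) = ((S.card + 1 : ℕ) : ℂ) := by push_cast; ring
      rw [this, Complex.norm_natCast, hd]
      push_cast
      ring
    rw [h4, div_le_iff₀ hd0]
    have h5 : (1 + ∑ j ∈ S, e (n * w j)) = (1 + z) + ∑ i ∈ S.erase j, e (n * w i) := by
      rw [← Finset.add_sum_erase S (fun i => e (n * w i)) hj, hz]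
      ring
    have h6 : ‖∑ i ∈ S.erase j, e (n * w i)‖ ≤ d - 2 := by
      refine (norm_sum_le _ _).trans ?_
      simp_rw [norm_e]
      rw [Finset.sum_const, Finset.card_erase_of_mem hj, nsmul_eq_mul, mul_one, hd,
        Nat.cast_sub (Finset.card_pos.2 ⟨j, hj⟩)]
      push_cast
      linarith
    rw [h5]
    refine (norm_add_le _ _).trans ?_
    have h7 : (1 - ‖z - 1‖ ^ 2 / (4 * d)) * d = d - ‖z - 1‖ ^ 2 / 4 := by
      field_simp
    rw [h7]
    linarith
  rw [← hz, ← hd]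
  refine h3.trans ?_
  have := Real.add_one_le_exp (-(‖z - 1‖ ^ 2 / (4 * d)))
  linarith

theorem step_cont (S : Finset ι) (w : ι → ℝ) {f : ℝ → ℂ} (hf : Continuous f) :
    Continuous (step S w f) := by
  unfold step
  refine (hf.add (continuous_finsetSum _ fun j _ => ?_)).div_const _
  exact hf.comp (continuous_id.add continuous_const)

theorem step_periodic (S : Finset ι) (w : ι → ℝ) {f : ℝ → ℂ} (hp : Function.Periodic f 1) :
    Function.Periodic (step S w f) 1 := by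
  intro x
  unfold step
  rw [hp x]
  congr 2
  refine Finset.sum_congr rfl fun j _ => ?_
  rw [show x + 1 + w j = x + w j + 1 by ring, hp]

theorem coef_step (S : Finset ι) (w : ι → ℝ) {f : ℝ → ℂ} (hp : Function.Periodic f 1)
    (hf : Continuous f) (n : ℤ) : coef (step S w f) n = mult S w n * coef f n := by
  have h1 : ∀ x : ℝ, e (-(n * x)) * step S w f x =
      (e (-(n * x)) * f x + ∑ j ∈ S, e (-(n * x)) * f (x + w j)) / (S.card + 1) := by
    intro x
    unfold step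
    rw [← mul_div_assoc, mul_add, Finset.mul_sum]
  have hc : ∀ j, Continuous fun x : ℝ => e (-(n * x)) * f (x + w j) := fun j =>
    cont_term n (g := fun x => f (x + w j)) (hf.comp (continuous_id.add continuous_const))
  have h2 : coef (step S w f) n = (coef f n + ∑ j ∈ S, coef (fun x => f (x + w j)) n) /
      (S.card + 1) := by
    unfold coef
    simp_rw [h1]
    rw [intervalIntegral.integral_div, intervalIntegral.integral_add
      ((cont_term n hf).intervalIntegrable _ _)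
      ((continuous_finsetSum _ fun j _ => hc j).intervalIntegrable _ _),
      intervalIntegral.integral_finsetSum fun j _ => (hc j).intervalIntegrable _ _]
  rw [h2]
  simp_rw [coef_shift hp]
  unfold mult
  rw [← Finset.sum_mul]
  ring

theorem iter_step (S : Finset ι) (w : ι → ℝ) {f : ℝ → ℂ} (hp : Function.Periodic f 1)
    (hf : Continuous f) (N : ℕ) : Function.Periodic ((step S w)^[N] f) 1 ∧
      Continuous ((step S w)^[N] f) ∧
      ∀ n, coef ((step S w)^[N] f) n = mult S w n ^ N * coef f n := by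
  induction N with
  | zero => exact ⟨hp, hf, fun n => by simp⟩
  | succ N ih =>
    obtain ⟨h1, h2, h3⟩ := ih
    rw [Function.iterate_succ', Function.comp_apply]
    refine ⟨step_periodic S w h1, step_cont S w h2, fun n => ?_⟩
    rw [coef_step S w h1 h2, h3, pow_succ]
    ring

theorem mult_zero (S : Finset ι) (w : ι → ℝ) : mult S w 0 = 1 := by
  unfold mult
  simp only [Int.cast_zero, zero_mul, e_zero, Finset.sum_const, nsmul_eq_mul, mul_one]
  have : ((S.card : ℂ) + 1) ≠ 0 := by exact_mod_cast Nat.succ_ne_zero S.card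
  rw [add_comm, div_self this]

/-- **The rate of convergence.** -/
theorem walk (S : Finset ι) (w : ι → ℝ) {c : ℝ} (hc : 0 < c) (τ : ℕ)
    (hw : ∀ n : ℤ, n ≠ 0 → ∃ j ∈ S, c / |(n:ℝ)| ^ τ ≤ ‖e (n * w j) - 1‖) (k : ℕ)
    {f : ℝ → ℂ} (hp : Function.Periodic f 1)
    (hf : ContDiff ℝ ((2 * τ * k + 2 : ℕ) : WithTop ℕ∞) f) :
    ∃ K : ℝ, ∀ N : ℕ, 1 ≤ N → ∀ x, ‖(step S w)^[N] f x - ∫ t in (0:ℝ)..1, f t‖ ≤ K / (N : ℝ) ^ k := by
  obtain ⟨M, hM, hMb⟩ := coef_decay' (2 * τ * k + 2) hp hf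
  obtain ⟨d, hd⟩ : ∃ d : ℝ, d = 4 * (S.card + 1) := ⟨_, rfl⟩
  have hd0 : 0 < d := by rw [hd]; positivity
  obtain ⟨L, hL⟩ : ∃ L : ℝ, L = M * (k.factorial * (d / c ^ 2) ^ k) := ⟨_, rfl⟩
  have hL0 : 0 ≤ L := by rw [hL]; positivity
  have hb : ∀ (N : ℕ), 1 ≤ N → ∀ n : ℤ, n ≠ 0 →
      ‖mult S w n ^ N * coef f n‖ ≤ (L / (N : ℝ) ^ k) * (1 / (1 + |(n : ℝ)|) ^ 2) := by
    intro N hN n hn
    obtain ⟨j, hj, h⟩ := hw n hn
    have hn0 : 0 < |(n : ℝ)| := abs_pos.2 (by exact_mod_cast hn)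
    have hN0 : (0:ℝ) < N := by exact_mod_cast hN
    obtain ⟨y, hy⟩ : ∃ y : ℝ, y = N * (c ^ 2 / (|(n:ℝ)| ^ (2 * τ) * d)) := ⟨_, rfl⟩
    have hy0 : 0 < y := by rw [hy]; positivity
    have h1 : ‖mult S w n‖ ^ N ≤ Real.exp (-y) := by
      calc ‖mult S w n‖ ^ N ≤ Real.exp (-(‖e (n * w j) - 1‖ ^ 2 / (4 * (S.card + 1)))) ^ N :=
            pow_le_pow_left₀ (norm_nonneg _) (mult_le S w n hj) N
        _ = Real.exp (-(N * (‖e (n * w j) - 1‖ ^ 2 / d))) := by
            rw [← Real.exp_nat_mul, hd]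
            congr 1
            ring
        _ ≤ Real.exp (-y) := by
            rw [Real.exp_le_exp, neg_le_neg_iff, hy]
            refine mul_le_mul_of_nonneg_left ?_ hN0.le
            have h2 : (c / |(n:ℝ)| ^ τ) ^ 2 ≤ ‖e (n * w j) - 1‖ ^ 2 :=
              pow_le_pow_left₀ (by positivity) h 2
            calc c ^ 2 / (|(n:ℝ)| ^ (2 * τ) * d) = (c / |(n:ℝ)| ^ τ) ^ 2 / d := by
                  rw [div_pow, ← pow_mul, mul_comm τ 2, div_div]
              _ ≤ _ := div_le_div_of_nonneg_right h2 hd0.le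
    have h2 : Real.exp (-y) ≤ k.factorial / y ^ k := by
      rw [Real.exp_neg, le_div_iff₀ (by positivity)]
      have h3 := Real.pow_div_factorial_le_exp y hy0.le k
      rw [div_le_iff₀ (by positivity)] at h3
      calc (Real.exp y)⁻¹ * y ^ k ≤ (Real.exp y)⁻¹ * (Real.exp y * k.factorial) :=
            mul_le_mul_of_nonneg_left h3 (by positivity)
        _ = k.factorial := by
            rw [← mul_assoc, inv_mul_cancel₀ (Real.exp_pos y).ne', one_mul]
    have h3 : (k.factorial : ℝ) / y ^ k =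
        k.factorial * (d / c ^ 2) ^ k * (|(n:ℝ)| ^ (2 * τ * k) / (N : ℝ) ^ k) := by
      have e1 : |(n:ℝ)| ^ (2 * τ * k) = (|(n:ℝ)| ^ (2 * τ)) ^ k := pow_mul _ _ _
      rw [hy, e1, mul_pow, div_pow, mul_pow, div_pow]
      field_simp
    rw [norm_mul, norm_pow]
    calc ‖mult S w n‖ ^ N * ‖coef f n‖
        ≤ (k.factorial * (d / c ^ 2) ^ k * (|(n:ℝ)| ^ (2 * τ * k) / (N : ℝ) ^ k)) *
          (M / (1 + |(n : ℝ)|) ^ (2 * τ * k + 2)) := by
          refine mul_le_mul ((h1.trans h2).trans (le_of_eq h3)) (hMb n) (norm_nonneg _)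
            (by positivity)
      _ = (L / (N : ℝ) ^ k) * (|(n:ℝ)| ^ (2 * τ * k) / (1 + |(n : ℝ)|) ^ (2 * τ * k)) *
          (1 / (1 + |(n : ℝ)|) ^ 2) := by
          rw [hL, pow_add]
          field_simp
      _ ≤ (L / (N : ℝ) ^ k) * 1 * (1 / (1 + |(n : ℝ)|) ^ 2) := by
          refine mul_le_mul_of_nonneg_right (mul_le_mul_of_nonneg_left ?_ (by positivity))
            (by positivity)
          rw [div_le_one (by positivity)]
          exact pow_le_pow_left₀ hn0.le (by linarith) _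
      _ = _ := by ring
  refine ⟨L * ∑' n : ℤ, 1 / (1 + |(n : ℝ)|) ^ 2, fun N hN x => ?_⟩
  obtain ⟨h1, h2, h3⟩ := iter_step S w hp hf.continuous N
  have hsum : Summable (fun n : ℤ => (L / (N : ℝ) ^ k) * (1 / (1 + |(n : ℝ)|) ^ 2)) :=
    summable_two.mul_left _
  have hs : Summable (coef ((step S w)^[N] f)) := by
    refine Summable.of_norm_bounded_eventually hsum (Filter.eventually_cofinite.2 ?_)
    refine (Set.finite_singleton (0:ℤ)).subset fun n hn => ?_
    by_contra h0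
    apply hn
    rw [h3 n]
    exact hb N hN n h0
  have h4 := inversion h1 h2 hs x
  have h5 := h4.sub (hasSum_ite_eq (0 : ℤ) (∫ t in (0:ℝ)..1, f t))
  rw [← h5.tsum_eq]
  have h6 : ∀ n : ℤ, ‖coef ((step S w)^[N] f) n * e (n * x) -
      (if n = 0 then ∫ t in (0:ℝ)..1, f t else 0)‖ ≤
      (L / (N : ℝ) ^ k) * (1 / (1 + |(n : ℝ)|) ^ 2) := by
    intro n
    by_cases hn : n = 0
    · rw [if_pos hn, hn, h3 0, mult_zero, one_pow, one_mul, coef_zero]
      simp only [Int.cast_zero, zero_mul, e_zero, mul_one, sub_self, norm_zero]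
      positivity
    · rw [if_neg hn, sub_zero, norm_mul, norm_e, mul_one, h3 n]
      exact hb N hN n hn
  refine (tsum_of_norm_bounded hsum.hasSum h6).trans (le_of_eq ?_)
  rw [tsum_mul_left]
  ring

end

end Pool.Agent.Helper12.ZR
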