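import Pool.Agent.Helper12.ZR.Rig

/-!
# The wave equation on the circle
-/

set_option autoImplicit false
open MeasureTheory Filter Topology
open scoped ContDiff

namespace Pool.Agent.Helper12.ZR

noncomputable section

/-- The motions of a closed string of length one: `u t x` is twice continuously differentiable, of
period one in `x`, and `u_tt = u_xx`. -/
structure Wave (u : ℝ → ℝ → ℂ) : Prop where
  smooth : ContDiff ℝ 2 (fun z : ℝ × ℝ => u z.1 z.2)
  periodic : ∀ t, Function.Periodic (u t) 1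
  wave : ∀ t x, deriv (fun s => deriv (fun r => u r x) s) t = deriv (fun y => deriv (u t) y) x

/-- differentiation of the coefficients -/
theorem coef_hasDerivAt {g g' : ℝ → ℝ → ℂ} (hg : Continuous (fun z : ℝ × ℝ => g z.1 z.2))
    (hg' : Continuous (fun z : ℝ × ℝ => g' z.1 z.2))
    (hd : ∀ t x, HasDerivAt (fun s => g s x) (g' t x) t) (n : ℤ) (t : ℝ) :
    HasDerivAt (fun s => coef (g s) n) (coef (g' t) n) t := by
  have hc : ∀ s, Continuous (g s) := fun s => hg.comp (Continuous.prodMk_right s)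
  have hc' : ∀ s, Continuous (g' s) := fun s => hg'.comp (Continuous.prodMk_right s)
  obtain ⟨K, hK⟩ : ∃ K : ℝ, ∀ s ∈ Metric.closedBall t 1, ∀ x ∈ Set.Icc (0:ℝ) 1, ‖g' s x‖ ≤ K := by
    have h1 : IsCompact (Metric.closedBall t 1 ×ˢ Set.Icc (0:ℝ) 1) :=
      (isCompact_closedBall t 1).prod isCompact_Icc
    obtain ⟨K, hK⟩ := h1.exists_bound_of_continuousOn hg'.continuousOn
    exact ⟨K, fun s hs x hx => hK (s, x) ⟨hs, hx⟩⟩
  refine (intervalIntegral.hasDerivAt_integral_of_dominated_loc_of_deriv_le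
    (F := fun s x => e (-(n * x)) * g s x) (F' := fun s x => e (-(n * x)) * g' s x)
    (bound := fun _ => K) (s := Metric.closedBall t 1) (Metric.closedBall_mem_nhds t one_pos)
    ?_ ?_ ?_ ?_ ?_ ?_).2
  · exact Eventually.of_forall fun s => (cont_term n (hc s)).aestronglyMeasurable
  · exact (cont_term n (hc t)).intervalIntegrable _ _
  · exact (cont_term n (hc' t)).aestronglyMeasurable
  · refine Eventually.of_forall fun x hx s hs => ?_
    rw [Set.uIoc_of_le zero_le_one] at hx
    rw [norm_mul, norm_e, one_mul]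
    exact hK s hs x ⟨hx.1.le, hx.2⟩
  · exact intervalIntegrable_const
  · exact Eventually.of_forall fun x _ s _ => (hd s x).const_mul _

theorem exp_ode {y : ℝ → ℂ} {c : ℂ} (hy : ∀ t, HasDerivAt y (c * y t) t) (t : ℝ) :
    y t = y 0 * Complex.exp (c * t) := by
  have h1 : ∀ t : ℝ, HasDerivAt (fun t : ℝ => Complex.exp (-c * t)) (-c * Complex.exp (-c * t)) t := by
    intro t
    have h := ((Complex.ofRealCLM.hasDerivAt (x := t)).const_mul (-c)).cexp
    have h2 : Complex.exp (-c * Complex.ofRealCLM t) * (-c * Complex.ofRealCLM 1) =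
        -c * Complex.exp (-c * t) := by
      simp
      ring
    rw [h2] at h
    exact h
  have h2 : ∀ t, HasDerivAt (fun t : ℝ => y t * Complex.exp (-c * t)) 0 t := by
    intro t
    have h := (hy t).mul (h1 t)
    refine h.congr_deriv ?_
    ring
  have h3 : (fun t : ℝ => y t * Complex.exp (-c * t)) t =
      (fun t : ℝ => y t * Complex.exp (-c * t)) 0 :=
    is_const_of_deriv_eq_zero (fun t => (h2 t).differentiableAt) (fun t => (h2 t).deriv) t 0
  simp only [Complex.ofReal_zero, mul_zero, Complex.exp_zero, mul_one] at h3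
  rw [← h3, mul_assoc, ← Complex.exp_add]
  have : -c * (t : ℂ) + c * t = 0 := by ring
  rw [this, Complex.exp_zero, mul_one]

/-- the coefficients of a motion -/
theorem Wave.coef_ode {u : ℝ → ℝ → ℂ} (hu : Wave u) (n : ℤ) :
    ∃ a' : ℝ → ℂ, (∀ t, HasDerivAt (fun s => coef (u s) n) (a' t) t) ∧
      ∀ t, HasDerivAt a' ((2 * Real.pi * Complex.I * n) ^ 2 * coef (u t) n) t := by
  obtain ⟨U, hU⟩ : ∃ U : ℝ × ℝ → ℂ, U = fun z => u z.1 z.2 := ⟨_, rfl⟩
  have hs : ContDiff ℝ 2 U := by rw [hU]; exact hu.smooth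
  have hd : ∀ (W : ℝ × ℝ → ℂ), ContDiff ℝ 1 W → ∀ t x,
      HasDerivAt (fun s => W (s, x)) (fderiv ℝ W (t, x) (1, 0)) t := by
    intro W hW t x
    have h1 : HasFDerivAt W (fderiv ℝ W (t, x)) (t, x) :=
      (hW.differentiable (by simp) _).hasFDerivAt
    have h2 : HasDerivAt (fun s : ℝ => (s, x)) ((1:ℝ), (0:ℝ)) t :=
      (hasDerivAt_id t).prodMk (hasDerivAt_const t x)
    exact h1.comp_hasDerivAt t h2
  obtain ⟨V, hV⟩ : ∃ V : ℝ × ℝ → ℂ, V = fun z => fderiv ℝ U z (1, 0) := ⟨_, rfl⟩
  have hVs : ContDiff ℝ 1 V := by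
    rw [hV]
    exact (hs.fderiv_right (m := 1) (by norm_num)).clm_apply contDiff_const
  obtain ⟨Y, hY⟩ : ∃ Y : ℝ × ℝ → ℂ, Y = fun z => fderiv ℝ V z (1, 0) := ⟨_, rfl⟩
  have hYc : Continuous Y := by
    rw [hY]
    exact (hVs.continuous_fderiv (by simp)).clm_apply continuous_const
  have h1 : ∀ t x, HasDerivAt (fun s => u s x) (V (t, x)) t := by
    intro t x
    have := hd U (hs.of_le (by norm_num)) t x
    rw [hV]
    rw [hU] at this ⊢
    exact this
  have h2 : ∀ t x, HasDerivAt (fun s => V (s, x)) (Y (t, x)) t := by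
    intro t x
    rw [hY]
    exact hd V hVs t x
  refine ⟨fun t => coef (fun x => V (t, x)) n, fun t => ?_, fun t => ?_⟩
  · exact coef_hasDerivAt (g := u) (g' := fun t x => V (t, x)) (by rw [hU] at hs; exact hs.continuous)
      (by exact hVs.continuous) h1 n t
  · have h3 := coef_hasDerivAt (g := fun t x => V (t, x)) (g' := fun t x => Y (t, x))
      (by exact hVs.continuous) (by exact hYc) h2 n t
    refine h3.congr_deriv ?_
    have h4 : (fun x => Y (t, x)) = deriv (deriv (u t)) := by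
      funext x
      have h5 : (fun s => deriv (fun r => u r x) s) = fun s => V (s, x) := by
        funext s
        exact (h1 s x).deriv
      have h6 := hu.wave t x
      rw [h5, (h2 t x).deriv] at h6
      exact h6
    have hut : ContDiff ℝ 2 (u t) := by
      have := hu.smooth
      exact this.comp (contDiff_const.prodMk contDiff_id)
    have hut1 : ContDiff ℝ 1 (deriv (u t)) := by
      have h7 : ContDiff ℝ (1 + 1) (u t) := by
        norm_num
        exact hut
      exact (contDiff_succ_iff_deriv.1 h7).2.2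
    show coef (fun x => Y (t, x)) n = _
    rw [h4, coef_deriv (periodic_deriv (hu.periodic t)) hut1 n,
      coef_deriv (hu.periodic t) (hut.of_le (by norm_num)) n]
    ring

/-- the modes of a motion -/
theorem Wave.mode {u : ℝ → ℝ → ℂ} (hu : Wave u) {n : ℤ} (hn : n ≠ 0) :
    ∃ P Q : ℂ, ∀ t, coef (u t) n = P * e (n * t) + Q * e (-(n * t)) := by
  obtain ⟨a', h1, h2⟩ := hu.coef_ode n
  obtain ⟨c, hc⟩ : ∃ c : ℂ, c = 2 * Real.pi * Complex.I * n := ⟨_, rfl⟩
  have hc0 : c ≠ 0 := by
    rw [hc]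
    have : (n : ℂ) ≠ 0 := by exact_mod_cast hn
    have h3 : (Real.pi : ℂ) ≠ 0 := by exact_mod_cast Real.pi_ne_zero
    simp [this, h3, Complex.I_ne_zero]
  rw [← hc] at h2
  have hA := exp_ode (y := fun t => a' t + c * coef (u t) n) (c := c) (fun t => by
    refine ((h2 t).add ((h1 t).const_mul c)).congr_deriv ?_
    ring)
  have hB := exp_ode (y := fun t => a' t - c * coef (u t) n) (c := -c) (fun t => by
    refine ((h2 t).sub ((h1 t).const_mul c)).congr_deriv ?_
    ring)
  refine ⟨(a' 0 + c * coef (u 0) n) / (2 * c), -(a' 0 - c * coef (u 0) n) / (2 * c), fun t => ?_⟩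
  have e1 : e (n * t) = Complex.exp (c * t) := by
    unfold e
    congr 1
    rw [hc]
    push_cast
    ring
  have e2 : e (-(n * t)) = Complex.exp (-(c * t)) := by
    unfold e
    congr 1
    rw [hc]
    push_cast
    ring
  rw [e1, e2]
  have hAt := hA t
  have hBt := hB t
  rw [neg_mul] at hBt
  field_simp
  linear_combination hAt - hBt

/-- the mean value of a motion -/
theorem Wave.mode_zero {u : ℝ → ℝ → ℂ} (hu : Wave u) :
    ∃ P Q : ℂ, ∀ t : ℝ, coef (u t) 0 = P + Q * t := by
  obtain ⟨a', h1, h2⟩ := hu.coef_ode 0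
  have h3 : ∀ t, a' t = a' 0 := fun t =>
    is_const_of_deriv_eq_zero (fun t => (h2 t).differentiableAt) (fun t => by
      rw [(h2 t).deriv]
      simp) t 0
  have h4 : ∀ t : ℝ, HasDerivAt (fun t : ℝ => coef (u t) 0 - a' 0 * t) 0 t := by
    intro t
    have h5 : HasDerivAt (fun t : ℝ => a' 0 * (t : ℂ)) (a' 0) t := by
      simpa using (Complex.ofRealCLM.hasDerivAt (x := t)).const_mul (a' 0)
    refine ((h1 t).sub h5).congr_deriv ?_
    rw [h3 t, sub_self]
  refine ⟨coef (u 0) 0, a' 0, fun t => ?_⟩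
  have h5 : (fun t : ℝ => coef (u t) 0 - a' 0 * t) t = (fun t : ℝ => coef (u t) 0 - a' 0 * t) 0 :=
    is_const_of_deriv_eq_zero (fun t => (h4 t).differentiableAt) (fun t => (h4 t).deriv) t 0
  simp only [Complex.ofReal_zero, mul_zero, sub_zero] at h5
  rw [← h5]
  ring

end

end Pool.Agent.Helper12.ZR
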