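import Pool.Graph.R_pool_sql_team_seeded_3997aac3.Q203.XS.Fin
import Pool.Agent.Helper12.ZR.Rig

/-!
# The nine numbers `ζ(11), …, ζ(27)`: small divisors
-/

set_option autoImplicit false
open MeasureTheory Filter Topology
open scoped ContDiff

namespace Pool.Agent.Helper12.ZR

noncomputable section

/-- the odd numbers from `11` to `27` -/
def J : Finset ℕ := {11, 13, 15, 17, 19, 21, 23, 25, 27}

/-- `ζ(j)` -/
def zeta (j : ℕ) : ℝ := ∑' n : ℕ, 1 / ((n : ℝ) + 1) ^ j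

/-- the library measure -/
theorem meas : ∃ c : ℝ, 0 < c ∧ ∀ (a : ℕ → ℤ) (q : ℕ), 0 < q → ∃ j ∈ J,
    c / (q : ℝ) ^ 392 ≤ |zeta j - (a j : ℝ) / q| := by
  obtain ⟨c, hc, h⟩ := Pool.Agent.Q203.XS.main'
  refine ⟨c, hc, fun a q hq => ?_⟩
  obtain ⟨l, hl, h1⟩ := h a q hq
  refine ⟨l + 8, ?_, h1⟩
  fin_cases hl <;> decide

/-- affine functions of the nine numbers -/
theorem meas_affine (p r s : ℕ → ℤ) (hp : ∀ j ∈ J, p j ≠ 0) (hs : ∀ j ∈ J, s j ≠ 0) :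
    ∃ c : ℝ, 0 < c ∧ ∀ (a : ℕ → ℤ) (q : ℤ), q ≠ 0 → ∃ j ∈ J,
      c / |(q : ℝ)| ^ 391 ≤ |q * ((p j * zeta j + r j) / s j) - a j| := by
  obtain ⟨c, hc, h⟩ := meas
  obtain ⟨P, hP⟩ : ∃ P : ℤ, P = ∏ j ∈ J, p j := ⟨_, rfl⟩
  obtain ⟨S, hS⟩ : ∃ S : ℤ, S = ∏ j ∈ J, s j := ⟨_, rfl⟩
  have hP0 : P ≠ 0 := by rw [hP]; exact Finset.prod_ne_zero_iff.2 hp
  have hS0 : S ≠ 0 := by rw [hS]; exact Finset.prod_ne_zero_iff.2 hs
  have hPd : ∀ j ∈ J, ∃ t : ℤ, P = p j * t := fun j hj => by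
    rw [hP]; exact Finset.dvd_prod_of_mem p hj
  choose! t ht using hPd
  have hPr : 0 < |(P : ℝ)| := abs_pos.2 (by exact_mod_cast hP0)
  have hSr : 0 < |(S : ℝ)| := abs_pos.2 (by exact_mod_cast hS0)
  have hP1 : 1 ≤ |(P : ℝ)| := by
    have := Int.one_le_abs hP0
    exact_mod_cast this
  have hS1 : ∀ j ∈ J, 1 ≤ |(s j : ℝ)| := fun j hj => by
    have := Int.one_le_abs (hs j hj)
    exact_mod_cast this
  obtain ⟨B, hB⟩ : ∃ B : ℝ, B = ∑ j ∈ J, |(s j : ℝ)| := ⟨_, rfl⟩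
  have hBs : ∀ j ∈ J, |(s j : ℝ)| ≤ B := fun j hj => by
    rw [hB]
    exact Finset.single_le_sum (f := fun j => |(s j : ℝ)|) (fun _ _ => abs_nonneg _) hj
  have hB1 : 0 < B := lt_of_lt_of_le one_pos
    ((hS1 11 (by decide)).trans (hBs 11 (by decide)))
  refine ⟨c / (|(P : ℝ)| ^ 391 * |(P : ℝ)| * B), by positivity, fun a q hq => ?_⟩
  have hqr : 0 < |(q : ℝ)| := abs_pos.2 (by exact_mod_cast hq)
  have hQ : 0 < (P * q).natAbs := Int.natAbs_pos.2 (mul_ne_zero hP0 hq)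
  have hQr : (((P * q).natAbs : ℕ) : ℝ) = |(P : ℝ)| * |(q : ℝ)| := by
    rw [Nat.cast_natAbs, abs_mul]
    push_cast
    rfl
  -- the integers
  obtain ⟨j, hj, h1⟩ := h (fun j => SignType.sign (P * q) * (t j * (a j * s j - q * r j)))
    (P * q).natAbs hQ
  refine ⟨j, hj, ?_⟩
  have hsr : (s j : ℝ) ≠ 0 := by exact_mod_cast hs j hj
  have htr : (P : ℝ) = p j * t j := by exact_mod_cast ht j hj
  have ht0 : (t j : ℝ) ≠ 0 := by
    intro h0
    rw [h0, mul_zero] at htr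
    rw [htr, abs_zero] at hPr
    exact lt_irrefl _ hPr
  have hp1 : 1 ≤ |(p j : ℝ)| := by
    have := Int.one_le_abs (hp j hj)
    exact_mod_cast this
  have htP : |(t j : ℝ)| ≤ |(P : ℝ)| := by
    rw [htr, abs_mul]
    exact le_mul_of_one_le_left (abs_nonneg _) hp1
  -- the identity
  have hsg : (((SignType.sign (P * q) : ℤ)) : ℝ) * (|(P : ℝ)| * |(q : ℝ)|) = P * q := by
    rw [← abs_mul]
    have := sign_mul_abs (P * q)
    exact_mod_cast this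
  have hsg2 : (((SignType.sign (P * q) : ℤ)) : ℝ) * (P * q) = |(P : ℝ)| * |(q : ℝ)| := by
    rw [← abs_mul]
    have := sign_mul_self (P * q)
    exact_mod_cast this
  have key : |(P : ℝ)| * |(q : ℝ)| * (zeta j - (((SignType.sign (P * q) : ℤ)) *
      (t j * (a j * s j - q * r j)) : ℝ) / (|(P : ℝ)| * |(q : ℝ)|)) =
      ((SignType.sign (P * q) : ℤ) : ℝ) * t j * s j *
        (q * ((p j * zeta j + r j) / s j) - a j) := by
    rw [mul_sub, mul_div_cancel₀ _ (by positivity), ← hsg2, htr]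
    field_simp
    ring
  have hPq : 0 < |(P : ℝ)| * |(q : ℝ)| := by positivity
  have h2 : c / (|(P : ℝ)| * |(q : ℝ)|) ^ 392 ≤
      |zeta j - (((SignType.sign (P * q) : ℤ)) * (t j * (a j * s j - q * r j)) : ℝ) /
        (|(P : ℝ)| * |(q : ℝ)|)| := by
    rw [hQr] at h1
    push_cast at h1 ⊢
    exact h1
  have h3 : c / (|(P : ℝ)| * |(q : ℝ)|) ^ 391 ≤
      |((SignType.sign (P * q) : ℤ) : ℝ) * t j * s j *
        (q * ((p j * zeta j + r j) / s j) - a j)| := by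
    rw [← key, abs_mul, abs_of_pos hPq]
    calc c / (|(P : ℝ)| * |(q : ℝ)|) ^ 391
        = |(P : ℝ)| * |(q : ℝ)| * (c / (|(P : ℝ)| * |(q : ℝ)|) ^ 392) := by
          rw [pow_succ (|(P : ℝ)| * |(q : ℝ)|) 391]
          field_simp
      _ ≤ _ := mul_le_mul_of_nonneg_left h2 hPq.le
  have h4 : |((SignType.sign (P * q) : ℤ) : ℝ)| ≤ 1 := by
    rcases SignType.sign (P * q) with _ | _ | _ <;> simp
  rw [abs_mul, abs_mul, abs_mul] at h3
  have h5 : |((SignType.sign (P * q) : ℤ) : ℝ)| * |(t j : ℝ)| * |(s j : ℝ)| ≤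
      1 * |(P : ℝ)| * B :=
    mul_le_mul (mul_le_mul h4 htP (abs_nonneg _) zero_le_one) (hBs j hj) (abs_nonneg _)
      (by positivity)
  have h6 := h3.trans (mul_le_mul_of_nonneg_right h5 (abs_nonneg _))
  rw [one_mul] at h6
  rw [div_div, div_le_iff₀ (by positivity)]
  rw [div_le_iff₀ (by positivity), mul_pow] at h6
  calc c ≤ |(P : ℝ)| * B * |q * ((p j * zeta j + r j) / s j) - a j| *
        (|(P : ℝ)| ^ 391 * |(q : ℝ)| ^ 391) := h6
    _ = _ := by ring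

/-- the small divisors -/
theorem divisors (p r s : ℕ → ℤ) (hp : ∀ j ∈ J, p j ≠ 0) (hs : ∀ j ∈ J, s j ≠ 0) :
    ∃ c : ℝ, 0 < c ∧ ∀ n : ℤ, n ≠ 0 → ∃ j ∈ J,
      c / |(n : ℝ)| ^ 391 ≤ ‖e (n * ((p j * zeta j + r j) / s j)) - 1‖ := by
  obtain ⟨c, hc, h⟩ := meas_affine p r s hp hs
  refine ⟨c, hc, fun n hn => ?_⟩
  obtain ⟨j, hj, h1⟩ := h (fun j => round ((n : ℝ) * ((p j * zeta j + r j) / s j))) n hn
  refine ⟨j, hj, h1.trans (le_trans ?_ (e_sub_one _))⟩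
  have := abs_nonneg ((n : ℝ) * ((p j * zeta j + r j) / s j) -
    round ((n : ℝ) * ((p j * zeta j + r j) / s j)))
  linarith

end

end Pool.Agent.Helper12.ZR
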